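import Pool.Agent.helper4.GA.Spec

set_option autoImplicit false

namespace Pool.Agent.GA

open Finset
open Pool.Agent.helper32.Cant

theorem LGW_pos {X : Type} [Fintype X] (n : ℕ) (R : X → ℕ) (w : X → ℝ) (j : ℕ) (x : X)
    (hw : ∀ x, 0 < w x) : 0 < mj n R w j x := by
  unfold mj
  refine Finset.sum_pos' (fun y _ => mul_nonneg (hw y).le ?_) ⟨x, mem_univ x, ?_⟩
  · unfold ind
    split_ifs <;> norm_num
  · unfold ind
    rw [if_pos (by simp)]
    simpa using hw x

theorem LGW_anti {X : Type} [Fintype X] (n : ℕ) (R : X → ℕ) (w : X → ℝ) (j : ℕ) (x : X)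
    (hw : ∀ x, 0 < w x) : mj n R w (j + 1) x ≤ mj n R w j x := by
  unfold mj
  refine Finset.sum_le_sum fun y _ => mul_le_mul_of_nonneg_left ?_ (hw y).le
  unfold ind
  split_ifs with h1 h2
  · exact le_refl _
  · exfalso
    apply h2
    refine h1.trans ?_
    exact pow_le_pow_right₀ (by norm_num) (by omega)
  · norm_num
  · exact le_refl _

theorem LGW_conc (K t : ℝ) (hK : 2 ≤ K) (h1 : 1 ≤ t) (h2 : t ≤ K) :
    Real.log t / (2 * Real.log K) ≤ 1 - 1 / t := by
  have hL : 0 < Real.log K := Real.log_pos (by linarith)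
  have ht : 0 < t := by linarith
  have hy0 : 0 ≤ Real.log t := Real.log_nonneg h1
  have hyL : Real.log t ≤ Real.log K := Real.log_le_log ht h2
  have hl0 : 0 ≤ Real.log t / Real.log K := div_nonneg hy0 hL.le
  have hl1 : Real.log t / Real.log K ≤ 1 := (div_le_one hL).2 hyL
  have hc := convexOn_exp.2 (Set.mem_univ (0 : ℝ)) (Set.mem_univ (-Real.log K))
    (sub_nonneg.2 hl1) hl0 (by ring)
  simp only [smul_eq_mul, mul_zero, zero_add, Real.exp_zero, mul_one] at hc
  have e1 : Real.log t / Real.log K * -Real.log K = -Real.log t := by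
    field_simp
  rw [e1, Real.exp_neg, Real.exp_neg, Real.exp_log ht, Real.exp_log (by linarith)] at hc
  have hK2 : K⁻¹ ≤ 1 / 2 := by
    rw [inv_le_comm₀ (by linarith) (by norm_num)]
    linarith
  have e2 : Real.log t / (2 * Real.log K) = Real.log t / Real.log K * (1 / 2) := by
    field_simp
  rw [e2, one_div t]
  have h3 : Real.log t / Real.log K * K⁻¹ ≤ Real.log t / Real.log K * (1 / 2) :=
    mul_le_mul_of_nonneg_left hK2 hl0
  linarith

theorem LGW : LGW_stmt := by
  intro X _ n m R w K x hw hK hm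
  induction m with
  | zero =>
    simp only [Nat.zero_add, range_zero, sum_empty]
    rw [div_self (LGW_pos n R w 2 x hw).ne', Real.log_one, zero_div]
  | succ m ih =>
    have ih' := ih fun i hi => hm i (by omega)
    rw [sum_range_succ]
    have p1 := LGW_pos n R w 2 x hw
    have p2 := LGW_pos n R w (m + 2) x hw
    have p3 := LGW_pos n R w (m + 3) x hw
    have e1 : Real.log (mj n R w 2 x / mj n R w (m + 1 + 2) x) =
        Real.log (mj n R w 2 x / mj n R w (m + 2) x) + Real.log (mj n R w (m + 2) x / mj n R w (m + 3) x) := by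
      rw [← Real.log_mul (div_pos p1 p2).ne' (div_pos p2 p3).ne']
      congr 1
      have : m + 1 + 2 = m + 3 := by omega
      rw [this]
      field_simp
    rw [e1, add_div]
    refine add_le_add ih' ?_
    have h := LGW_conc K (mj n R w (m + 2) x / mj n R w (m + 3) x) hK
      ((one_le_div p3).2 (LGW_anti n R w (m + 2) x hw)) ((div_le_iff₀ p3).2 (hm m (by omega)))
    refine h.trans ?_
    unfold om
    rw [one_div_div]

end Pool.Agent.GA
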